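import Mathlib
import Pool.Agent.H97.Hankel

set_option autoImplicit false

namespace Pool.Agent.Results.MP_dc9318_an.NoHS

open Complex MeasureTheory
open scoped ComplexConjugate

variable {n : ℕ}

/-- Reinhardt sets: invariant under independent rotations of the coordinates. -/
def Reinhardt (Ω : Set (Fin n → ℂ)) : Prop :=
  ∀ z ∈ Ω, ∀ θ : Fin n → ℝ, (fun j => exp (θ j * I) * z j) ∈ Ω

/-- Lebesgue measure on `Ω`. -/
noncomputable def leb (Ω : Set (Fin n → ℂ)) : Measure (Fin n → ℂ) := volume.restrict Ω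

/-- `L²(Ω)`. -/
def L2 (Ω : Set (Fin n → ℂ)) : Type := Lp ℂ 2 (leb Ω)

noncomputable instance instNorm (Ω : Set (Fin n → ℂ)) : NormedAddCommGroup (L2 Ω) :=
  Lp.instNormedAddCommGroup

noncomputable instance instInner (Ω : Set (Fin n → ℂ)) : InnerProductSpace ℂ (L2 Ω) :=
  L2.innerProductSpace

/-- a representative of a class in `L²(Ω)` -/
noncomputable def fn {Ω : Set (Fin n → ℂ)} (F : L2 Ω) : (Fin n → ℂ) → ℂ :=
  (show Lp ℂ 2 (leb Ω) from F)

/-- the class of a square integrable function -/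
noncomputable def cls {Ω : Set (Fin n → ℂ)} {g : (Fin n → ℂ) → ℂ} (h : MemLp g 2 (leb Ω)) :
    L2 Ω := MemLp.toLp g h

/-- `F` is the class of a holomorphic function on `Ω`. -/
def Hol (Ω : Set (Fin n → ℂ)) (F : L2 Ω) : Prop :=
  ∃ g : (Fin n → ℂ) → ℂ, DifferentiableOn ℂ g Ω ∧ fn F =ᵐ[leb Ω] g

theorem hol_add {Ω : Set (Fin n → ℂ)} {F G : L2 Ω} (hF : Hol Ω F) (hG : Hol Ω G) :
    Hol Ω (F + G) := Pool.Agent.H97.Hankel.hol_add hF hG

theorem hol_zero {Ω : Set (Fin n → ℂ)} : Hol Ω 0 := Pool.Agent.H97.Hankel.hol_zero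

theorem hol_smul {Ω : Set (Fin n → ℂ)} (c : ℂ) {F : L2 Ω} (hF : Hol Ω F) : Hol Ω (c • F) :=
  Pool.Agent.H97.Hankel.hol_smul c hF

/-- The Bergman space: classes in `L²(Ω)` of holomorphic functions. -/
def A2 (Ω : Set (Fin n → ℂ)) : Submodule ℂ (L2 Ω) where
  carrier := {F | Hol Ω F}
  add_mem' := hol_add
  zero_mem' := hol_zero
  smul_mem' := hol_smul

/-- The Bergman space as a type. -/
def Berg (Ω : Set (Fin n → ℂ)) : Type := A2 Ω

noncomputable instance instNormB (Ω : Set (Fin n → ℂ)) : NormedAddCommGroup (Berg Ω) :=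
  Submodule.normedAddCommGroup (A2 Ω)

noncomputable instance instInnerB (Ω : Set (Fin n → ℂ)) : InnerProductSpace ℂ (Berg Ω) :=
  Submodule.innerProductSpace (A2 Ω)

/-- the function `conj f * g` -/
noncomputable def mulConj {Ω : Set (Fin n → ℂ)} (f : (Fin n → ℂ) → ℂ) (g : Berg Ω) :
    (Fin n → ℂ) → ℂ := fun z => conj (f z) * fn (Subtype.val g) z

/-- The domain of the Hankel operator with symbol `conj f`. -/
def dom (Ω : Set (Fin n → ℂ)) (f : (Fin n → ℂ) → ℂ) : Set (Berg Ω) :=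
  {g | MemLp (mulConj f g) 2 (leb Ω)}

/-- `u = (I - P) w`: `u` is the component of `w` orthogonal to the Bergman space. -/
def IsOrthPart (Ω : Set (Fin n → ℂ)) (w u : L2 Ω) : Prop := u ∈ (A2 Ω)ᗮ ∧ w - u ∈ A2 Ω

/-- `T` agrees with `g ↦ (I - P) (conj f * g)` on the domain. -/
def Extends (Ω : Set (Fin n → ℂ)) (f : (Fin n → ℂ) → ℂ) (T : Berg Ω → L2 Ω) : Prop :=
  ∀ (g : Berg Ω) (h : MemLp (mulConj f g) 2 (leb Ω)), IsOrthPart Ω (cls h) (T g)

theorem result {n : ℕ} (hn : 2 ≤ n) (Ω : Set (Fin n → ℂ)) (hΩ : IsOpen Ω) (hc : IsConnected Ω)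
    (hb : Bornology.IsBounded Ω) (hR : Reinhardt Ω) (f : (Fin n → ℂ) → ℂ)
    (hf : DifferentiableOn ℂ f Ω) (T : Berg Ω →L[ℂ] L2 Ω) (hd : Dense (dom Ω f))
    (hT : Extends Ω f T) {ι : Type*} (b : HilbertBasis ι ℂ (Berg Ω))
    (hs : Summable fun i => ‖T (b i)‖ ^ 2) :
    T = 0 ∧ ∃ c : ℂ, ∀ z ∈ Ω, f z = c :=
  Pool.Agent.H97.Hankel.main hn Ω hΩ hc hb hR f hf T hd hT b hs

end Pool.Agent.Results.MP_dc9318_an.NoHS
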